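import Pool.Agent.R121.PQ

set_option autoImplicit false

/-!
# Odd integers as a prime plus twice a square, in every residue class of every modulus

For every modulus `q ≤ N ^ (1 / 2 - ρ)` with at most `(log N)^T` divisors, without any exceptional moduli, and every
residue class `b` modulo `q` with `gcd(b, q) ≤ (log N)^T`, all but at most `N / (q (log N)^A)` of the odd `n ≤ N`,
`n ≡ b (mod q)`, are of the form `p + 2 m ^ 2`, with the asymptotic formula of Hardy and Littlewood for the number of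
the representations with `m ≤ y`, up to `√N / (log N)^C`, for all `y` with `2 y ^ 2 < n`.

The main input is the theorem `fin_sb` of the team development `R460/SB` (circle method in a residue class).
-/

namespace Pool.Agent.Results.MP_6b8fc7_nt.EveryModulus

open Finset

/-- The singular series of the question, with the product truncated at `z`. -/
noncomputable def S (n z : ℕ) : ℝ :=
  ∏ w ∈ (Icc 3 z).filter Nat.Prime, (1 - (jacobiSym (2 * n) w : ℝ) / ((w : ℝ) - 1))

/-- The sum of `log p` over the solutions of `n = p + 2 m ^ 2` with `p` prime and `1 ≤ m ≤ y`. -/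
noncomputable def Rep (n y : ℕ) : ℝ :=
  ∑ m ∈ Icc 1 y, if (n - 2 * m ^ 2).Prime then Real.log ((n - 2 * m ^ 2 : ℕ) : ℝ) else 0

/-- The conclusion for one integer `n`. -/
def Good (C N z n : ℕ) : Prop :=
  (∃ p m : ℕ, p.Prime ∧ 1 ≤ m ∧ n = p + 2 * m ^ 2) ∧
  ∀ y : ℕ, 2 * y ^ 2 < n → |Rep n y - 2 * S n z * y| ≤ Real.sqrt N / Real.log N ^ C

open Classical in
/-- The number of the odd `n ≤ N`, `n ≡ b (mod q)`, for which the conclusion fails. -/
noncomputable def exceptions (C N z q b : ℕ) : ℕ :=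
  ((Icc 1 N).filter (fun n => Odd n ∧ n ≡ b [MOD q] ∧ ¬ Good C N z n)).card

theorem result (ρ : ℝ) (hρ : 0 < ρ) (A C T : ℕ) :
    ∃ B : ℕ, ∀ E : ℕ, ∃ N₀ : ℕ, ∀ N : ℕ, N₀ ≤ N →
      ∀ z : ℕ, Real.log N ^ B ≤ z → (z : ℝ) ≤ Real.log N ^ E →
      ∀ q : ℕ, 1 ≤ q → (q : ℝ) ≤ (N : ℝ) ^ (1 / 2 - ρ) → (q.divisors.card : ℝ) ≤ Real.log N ^ T →
      ∀ b : ℕ, (Nat.gcd b q : ℝ) ≤ Real.log N ^ T →
        (exceptions C N z q b : ℝ) ≤ N / (q * Real.log N ^ A) := by
  classical
  obtain ⟨B, hB⟩ := Pool.Agent.R121.PQ.fin_pos 2 0 (by norm_num) ρ hρ A C (T + 1)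
  refine ⟨B + 1, fun E => ?_⟩
  obtain ⟨N₀, h0⟩ := hB E
  obtain ⟨N₁, h1⟩ := Filter.eventually_atTop.1 (Pool.Agent.Y614.GJ.Core.ev_log 1 (s := 1) (by norm_num) 8)
  refine ⟨N₀ + N₁, fun N hN z hz1 hz2 q hq1 hqN hτ b hb => ?_⟩
  have hL8 := (h1 N (by omega)).1
  have hL1 : 1 ≤ Real.log N := by linarith
  have hz1' : Real.log N ^ B ≤ z := (pow_le_pow_right₀ hL1 (by omega)).trans hz1
  have hz : 2 ≤ z := by
    have k1 : (8 : ℝ) ≤ z := by
      refine le_trans ?_ hz1
      calc (8 : ℝ) ≤ Real.log N ^ 1 := by rw [pow_one]; exact hL8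
        _ ≤ Real.log N ^ (B + 1) := pow_le_pow_right₀ hL1 (by omega)
    have : 8 ≤ z := by exact_mod_cast k1
    omega
  have h2 := h0 N (by omega) z hz1' hz2 q hq1 hqN (hτ.trans (pow_le_pow_right₀ hL1 (by omega))) b (by
      have e1 : Int.gcd (4 * ((2 : ℕ) : ℤ) * b + ((0 : ℕ) : ℤ) ^ 2) q ≤ 8 * Nat.gcd b q := by
        have e2 : (4 * ((2 : ℕ) : ℤ) * b + ((0 : ℕ) : ℤ) ^ 2 : ℤ) = ((8 * b : ℕ) : ℤ) := by
          push_cast
          ring
        rw [e2, Int.gcd_natCast_natCast]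
        have e3 : Nat.gcd (8 * b) q ∣ Nat.gcd 8 q * Nat.gcd b q := Nat.gcd_mul_left_dvd_mul_gcd _ _ _
        have e4 : 0 < Nat.gcd 8 q * Nat.gcd b q :=
          Nat.mul_pos (Nat.gcd_pos_of_pos_left _ (by norm_num)) (Nat.gcd_pos_of_pos_right _ hq1)
        refine (Nat.le_of_dvd e4 e3).trans ?_
        apply Nat.mul_le_mul_right
        exact Nat.gcd_le_left _ (by norm_num)
      have e5 : ((Int.gcd (4 * ((2 : ℕ) : ℤ) * b + ((0 : ℕ) : ℤ) ^ 2) q : ℕ) : ℝ) ≤ 8 * (Nat.gcd b q : ℝ) := by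
        exact_mod_cast e1
      refine e5.trans ?_
      rw [pow_succ, mul_comm]
      exact mul_le_mul hb hL8 (by norm_num) (by positivity))
  refine le_trans ?_ h2
  unfold exceptions
  have hsub : (Icc 1 N).filter (fun n => Odd n ∧ n ≡ b [MOD q] ∧ ¬ Good C N z n) ⊆
      (Icc 1 N).filter (fun n => n ≡ b [MOD q] ∧ ¬ Pool.Agent.R121.PQ.GoodP 2 0 C N z n) := by
    intro n hn
    rw [mem_filter] at hn ⊢
    obtain ⟨n1, n2, n3, n4⟩ := hn
    refine ⟨n1, n3, fun hg => n4 ?_⟩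
    have hS : Pool.Agent.R460.SB.Sz ((2 : ℕ) : ℤ) ((0 : ℕ) : ℤ) (n : ℤ) z = 2 * S n z := by
      unfold S
      apply Pool.Agent.R121.PQ.Sz_odd _ _ _ (2 * (n : ℤ)) z hz
      · apply Pool.Agent.R121.PQ.nu_two_zero
        intro r hr
        rcases n2 with ⟨t, ht⟩
        obtain ⟨s, hs⟩ := hr
        push_cast at hs
        rw [ht] at hs
        push_cast at hs
        ring_nf at hs
        omega
      · intro p hp h2
        exact Pool.Agent.R121.PQ.not_dvd_two hp h2
      · intro p hp h2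
        have e : (4 * ((2 : ℕ) : ℤ) * (n : ℤ) + ((0 : ℕ) : ℤ) ^ 2 : ℤ) = 2 ^ 2 * (2 * (n : ℤ)) := by
          push_cast
          ring
        rw [e, jacobiSym.mul_left, jacobiSym.pow_left]
        have h4 : jacobiSym 2 p ^ 2 = 1 := by
          apply jacobiSym.sq_one
          have := (Nat.coprime_primes Nat.prime_two hp).2 (Ne.symm h2)
          exact_mod_cast this
        rw [h4, one_mul]
    have hRep : ∀ y : ℕ, Pool.Agent.R121.PQ.RepP 2 0 n y = Rep n y := by
      intro y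
      unfold Pool.Agent.R121.PQ.RepP Rep
      simp only [zero_mul, add_zero]
    refine ⟨?_, fun y hy => ?_⟩
    · have hloc : ∀ p : ℕ, p.Prime → ∃ m : ℕ, ¬ (p : ℤ) ∣ Pool.Agent.R460.SB.fv ((2 : ℕ) : ℤ) ((0 : ℕ) : ℤ) (n : ℤ) m := by
        intro p hp
        by_contra hno
        push Not at hno
        have k0 := hno 0
        have k1 := hno 1
        unfold Pool.Agent.R460.SB.fv at k0 k1
        have k2 := dvd_sub k0 k1
        push_cast at k0 k2
        ring_nf at k0 k2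
        have k3 : p ∣ 2 := by exact_mod_cast k2
        have k4 : p = 2 := (Nat.prime_dvd_prime_iff_eq hp Nat.prime_two).1 k3
        subst k4
        have k5 : 2 ∣ n := by exact_mod_cast k0
        rcases n2 with ⟨t, ht⟩
        omega
      obtain ⟨p, m, h5, h6, h7⟩ := hg.1 hloc
      exact ⟨p, m, h5, h6, by rw [h7]; ring⟩
    · have h5 := hg.2 y (by omega)
      rw [hS, hRep] at h5
      exact h5
  exact_mod_cast card_le_card hsub

end Pool.Agent.Results.MP_6b8fc7_nt.EveryModulus
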