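import Mathlib
import Pool.Agent.R291.RMW.Z4

set_option autoImplicit false

/-!
# The Hardy–Littlewood formula for `N = q + c m ^ k` in random models of the primes

For EVERY sequential random model of the primes (the integers are decided one after the other, only
integers coprime to a fixed `Q` can be chosen, and the conditional probability of choosing `n + 1`
(coprime to `Q`) given the past is asymptotic to `(Q / φ(Q)) / log n`; no independence is assumed; for
`Q = 1` Cramér's model and the Hawkins random sieve are examples) and all `c, k ≥ 1` we prove the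
asymptotic formula of Hardy and Littlewood for the number of the representations `N = q + c m ^ k`,
`q` in the random set, for ALL `N → ∞` without a common factor with `c` and `Q`, and in every range
`m ≤ M(N)` with `M(N) / (log N)² → ∞`.
-/

open MeasureTheory Filter
open scoped Topology

namespace Pool.Agent.Results.MP_6b8fc7_nt.HardyLittlewoodRandomModels

/-- the number of the residues `a` mod `Q` such that `N - c a ^ k` is coprime to `Q`, divided by `φ(Q)` -/
noncomputable def s (Q c k N : ℕ) : ℝ :=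
  ((Finset.range Q).filter (fun a : ℕ => Int.gcd ((N : ℤ) - c * (a : ℤ) ^ k) Q = 1)).card / (Nat.totient Q : ℝ)

/-- the number of the integers `0 ≤ m ≤ M` with `c m ^ k < N` such that `N - c m ^ k` is in the set of
the `n` with `ω ∈ A n` -/
noncomputable def rep {Ω : Type} (A : ℕ → Set Ω) (ω : Ω) (c k M N : ℕ) : ℕ :=
  {m : ℕ | m ≤ M ∧ c * m ^ k < N ∧ ω ∈ A (N - c * m ^ k)}.ncard

end Pool.Agent.Results.MP_6b8fc7_nt.HardyLittlewoodRandomModels

open Pool.Agent.Results.MP_6b8fc7_nt.HardyLittlewoodRandomModels Pool.Agent.R528.RM Pool.Agent.R291.RMW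

/-- Let `A n` be the event that `n` belongs to a random set `S` adapted to a filtration `ℱ`, let
`Q ≥ 1`, let no integer which is not coprime to `Q` be chosen, and let the conditional probability of
`A (n + 1)` given `ℱ n`, times `log n`, tend to `Q / φ(Q)` along the `n` with `n + 1` coprime to `Q`,
almost surely.  Let `c, k ≥ 1` and let `M(N)` be integers with `c M(N) ^ k ≤ N` and
`M(N) / (log N)² → ∞`.  Then almost surely the number of the `m ≤ M(N)` with `N - c m ^ k` in `S` is
asymptotic to `s(N) M(N) / log N` as `N → ∞` with `gcd (N, c, Q) = 1`. -/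
theorem Pool.Agent.Results.MP_6b8fc7_nt.HardyLittlewoodRandomModels.result
    {Ω : Type} [mΩ : MeasurableSpace Ω] (μ : Measure Ω) [IsProbabilityMeasure μ]
    (ℱ : Filtration ℕ mΩ) (A : ℕ → Set Ω) (hA : ∀ n, MeasurableSet[ℱ n] (A n))
    (Q : ℕ) (hQ : 0 < Q) (hcop : ∀ n, ¬ Nat.Coprime n Q → A n = ∅)
    (hd : ∀ᵐ ω ∂μ, Tendsto (fun n : ℕ =>
      (μ[(A (n + 1)).indicator (fun _ => (1 : ℝ)) | ℱ n]) ω * Real.log n)
      (atTop ⊓ 𝓟 {n : ℕ | Nat.Coprime (n + 1) Q}) (𝓝 ((Q : ℝ) / Nat.totient Q)))
    (c k : ℕ) (hc : 0 < c) (hk : 0 < k) (M : ℕ → ℕ) (hM : ∀ᶠ N : ℕ in atTop, c * M N ^ k ≤ N)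
    (hM' : Tendsto (fun N : ℕ => (M N : ℝ) / Real.log N ^ 2) atTop atTop) :
    (∀ N : ℕ, Nat.gcd N (Nat.gcd c Q) = 1 → 0 < s Q c k N) ∧
    ∀ᵐ ω ∂μ, Tendsto (fun N : ℕ => (rep A ω c k (M N) N : ℝ) / (s Q c k N * (M N / Real.log N)))
      (atTop ⊓ 𝓟 {N : ℕ | Nat.gcd N (Nat.gcd c Q) = 1}) (𝓝 1) := by
  have hprof := Pool.Agent.R528.RM.dens_profile (μ := μ) (ℱ := ℱ) hA Q hQ hcop hd
  have hR : Rng c k M := by
    refine ⟨hM, ?_, ?_⟩
    · refine (hM'.inv_tendsto_atTop).congr fun N => ?_
      simp only [Pi.inv_apply, inv_div]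
    · filter_upwards [hM'.eventually_gt_atTop 0] with N hN
      rcases Nat.eq_zero_or_pos (M N) with h | h
      · rw [h, Nat.cast_zero, zero_div] at hN
        exact absurd hN (lt_irrefl _)
      · exact h
  refine ⟨fun N hN => pk_pos hQ hk hN, ?_⟩
  filter_upwards [pk_count (μ := μ) (ℱ := ℱ) hA hQ hc hk hprof hR] with ω hω
  refine hω.congr fun N => ?_
  rw [← rN_card]
  rfl
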